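import Pool.Agent.Helper69.ST.Goals
import Pool.Agent.Helper19.ST.H2

open MeasureTheory Set Complex Metric Filter
open scoped ContDiff Topology ENNReal

namespace Pool.Agent.Helper71.ST.AB

open Pool.Agent.Helper45.Stek Pool.Agent.Helper69.ST

/-- the coefficients of the square -/
noncomputable def gam (β : ℕ → ℂ) (n : ℕ) : ℂ :=
  ∑ ij ∈ Finset.HasAntidiagonal.antidiagonal n, β ij.1 * β ij.2

noncomputable def cc (β : ℕ → ℂ) (n : ℕ) : ℝ :=
  ∑ ij ∈ Finset.HasAntidiagonal.antidiagonal n, ‖β ij.1‖ ^ 2 * ‖β ij.2‖ ^ 2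

theorem gam_le (β : ℕ → ℂ) (n : ℕ) : ‖gam β n‖ ^ 2 ≤ (n + 1) * cc β n := by
  have h1 : ‖gam β n‖ ≤ ∑ ij ∈ Finset.HasAntidiagonal.antidiagonal n, ‖β ij.1‖ * ‖β ij.2‖ := by
    refine (norm_sum_le _ _).trans (le_of_eq ?_)
    exact Finset.sum_congr rfl fun _ _ => norm_mul _ _
  have h2 : ‖gam β n‖ ^ 2 ≤ (∑ ij ∈ Finset.HasAntidiagonal.antidiagonal n, ‖β ij.1‖ * ‖β ij.2‖) ^ 2 :=
    pow_le_pow_left₀ (norm_nonneg _) h1 2
  refine h2.trans (sq_sum_le_card_mul_sum_sq.trans (le_of_eq ?_))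
  rw [Finset.Nat.card_antidiagonal]
  push_cast
  congr 1
  exact Finset.sum_congr rfl fun _ _ => mul_pow _ _ _

theorem cc_nonneg (β : ℕ → ℂ) (n : ℕ) : 0 ≤ cc β n :=
  Finset.sum_nonneg fun _ _ => by positivity

theorem cc_hasSum (β : ℕ → ℂ) (hs : Summable (fun n => ‖β n‖ ^ 2)) :
    HasSum (cc β) ((∑' n : ℕ, ‖β n‖ ^ 2) ^ 2) := by
  have hs' : Summable (fun n => ‖‖β n‖ ^ 2‖) := by
    refine hs.congr fun n => ?_
    rw [Real.norm_of_nonneg (by positivity)]
  have h1 := summable_norm_sum_mul_antidiagonal_of_summable_norm hs' hs'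
  have h2 := tsum_mul_tsum_eq_tsum_sum_antidiagonal_of_summable_norm hs' hs'
  have h3 : Summable (cc β) := by
    refine h1.of_norm.congr fun n => rfl
  rw [sq, h2]
  exact h3.hasSum

theorem hsq (p : ℕ) (β : ℕ → ℂ) (hsm : ∀ r : ℝ, 0 ≤ r → r < 1 → Summable (fun n : ℕ => ‖β n‖ * r ^ n))
    (hp : 1 ≤ p) (r θ : ℝ) (hr0 : 0 ≤ r) (hr1 : r < 1) :
    Summable (fun n => ‖gam β n * (r : ℂ) ^ (p * n)‖) ∧
    hfun p β (r * exp (θ * I)) ^ 2 =
      ∑' n : ℕ, (gam β n * (r : ℂ) ^ (p * n)) * exp ((((p : ℤ) * n : ℤ) : ℂ) * θ * I) := by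
  have hrp0 : 0 ≤ r ^ p := pow_nonneg hr0 p
  have hrp1 : r ^ p < 1 := pow_lt_one₀ hr0 hr1 (by omega)
  have hb := hsm (r ^ p) hrp0 hrp1
  have hn : ∀ z : ℂ, ‖z‖ = r → Summable (fun n : ℕ => ‖β n * z ^ (p * n)‖) := by
    intro z hz
    refine hb.congr fun n => ?_
    rw [norm_mul, norm_pow, hz, pow_mul]
  have key : ∀ z : ℂ, ‖z‖ = r →
      Summable (fun n => ‖gam β n * z ^ (p * n)‖) ∧ hfun p β z ^ 2 = ∑' n, gam β n * z ^ (p * n) := by
    intro z hz
    have h1 := summable_norm_sum_mul_antidiagonal_of_summable_norm (hn z hz) (hn z hz)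
    have h2 := tsum_mul_tsum_eq_tsum_sum_antidiagonal_of_summable_norm (hn z hz) (hn z hz)
    have h3 : ∀ n, ∑ ij ∈ Finset.HasAntidiagonal.antidiagonal n, (β ij.1 * z ^ (p * ij.1)) * (β ij.2 * z ^ (p * ij.2)) =
        gam β n * z ^ (p * n) := by
      intro n
      rw [gam, Finset.sum_mul]
      refine Finset.sum_congr rfl fun ij hij => ?_
      rw [Finset.HasAntidiagonal.mem_antidiagonal] at hij
      rw [← hij, Nat.mul_add, pow_add]
      ring
    refine ⟨h1.congr fun n => by rw [h3], ?_⟩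
    rw [sq, hfun, h2]
    exact tsum_congr h3
  have hz0 : ‖(r : ℂ)‖ = r := by rw [Complex.norm_real, Real.norm_of_nonneg hr0]
  refine ⟨(key r hz0).1, ?_⟩
  have hz : ‖(r : ℂ) * exp (θ * I)‖ = r := by
    rw [norm_mul, hz0, Complex.norm_exp_ofReal_mul_I, mul_one]
  rw [(key _ hz).2]
  refine tsum_congr fun n => ?_
  rw [mul_pow, ← Complex.exp_nat_mul, mul_assoc]
  congr 2
  congr 1
  push_cast
  ring

theorem circle (p : ℕ) (β : ℕ → ℂ) (hsm : ∀ r : ℝ, 0 ≤ r → r < 1 → Summable (fun n : ℕ => ‖β n‖ * r ^ n))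
    (hp : 1 ≤ p) (r : ℝ) (hr0 : 0 ≤ r) (hr1 : r < 1) :
    HasSum (fun n => 2 * Real.pi * (‖gam β n‖ ^ 2 * r ^ (2 * (p * n))))
      (∫ θ in (-Real.pi)..Real.pi, ‖hfun p β (r * exp (θ * I))‖ ^ 4) := by
  have h1 := Pool.Agent.Helper19.ST.H2.parseval (fun n => gam β n * (r : ℂ) ^ (p * n)) p hp
    (hsq p β hsm hp r 0 hr0 hr1).1
  have h2 : ∀ θ : ℝ, ‖hfun p β (r * exp (θ * I))‖ ^ 4 =
      ‖∑' n : ℕ, (gam β n * (r : ℂ) ^ (p * n)) * exp ((((p : ℤ) * n : ℤ) : ℂ) * θ * I)‖ ^ 2 := by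
    intro θ
    rw [← (hsq p β hsm hp r θ hr0 hr1).2, norm_pow]
    ring
  simp_rw [h2]
  have e : (fun n => 2 * Real.pi * (‖gam β n‖ ^ 2 * r ^ (2 * (p * n)))) =
      fun n => 2 * Real.pi * ‖gam β n * (r : ℂ) ^ (p * n)‖ ^ 2 := by
    funext n
    rw [norm_mul, norm_pow, Complex.norm_real, Real.norm_of_nonneg hr0, mul_pow, ← pow_mul]
    ring_nf
  rw [e]
  exact h1

theorem polar_eq (r θ : ℝ) : Complex.polarCoord.symm (r, θ) = (r : ℂ) * exp (θ * I) := by
  rw [Complex.polarCoord_symm_apply, Complex.exp_mul_I]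
  push_cast
  ring

theorem norm_re (r θ : ℝ) (hr : 0 ≤ r) : ‖(r : ℂ) * exp (θ * I)‖ = r := by
  rw [norm_mul, Complex.norm_exp_ofReal_mul_I, mul_one, Complex.norm_real, Real.norm_of_nonneg hr]

theorem inner (p : ℕ) (β : ℕ → ℂ) (hsm : ∀ r : ℝ, 0 ≤ r → r < 1 → Summable (fun n : ℕ => ‖β n‖ * r ^ n))
    (hp : 1 ≤ p) (hc : ContinuousOn (hfun p β) (ball 0 1)) (r : ℝ) (hr0 : 0 < r) (hr1 : r < 1) :
    ∫⁻ θ in Ioo (-Real.pi) Real.pi, ENNReal.ofReal r * ENNReal.ofReal (‖hfun p β (r * exp (θ * I))‖ ^ 4) =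
      ∑' n : ℕ, ENNReal.ofReal (2 * Real.pi * ‖gam β n‖ ^ 2 * r ^ (2 * (p * n) + 1)) := by
  have hcont : Continuous (fun θ : ℝ => ‖hfun p β (r * exp (θ * I))‖ ^ 4) := by
    have h1 : Continuous (fun θ : ℝ => hfun p β (r * exp (θ * I))) := by
      refine hc.comp_continuous (by fun_prop) fun θ => ?_
      rw [mem_ball_zero_iff, norm_re r θ hr0.le]
      exact hr1
    exact (h1.norm).pow 4
  have hpi : -Real.pi ≤ Real.pi := by linarith [Real.pi_pos]
  have hmeas : Measurable (fun θ : ℝ => ENNReal.ofReal (‖hfun p β (r * exp (θ * I))‖ ^ 4)) :=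
    (ENNReal.continuous_ofReal.comp hcont).measurable
  rw [lintegral_const_mul _ hmeas]
  have h1 : ∫⁻ θ in Ioo (-Real.pi) Real.pi, ENNReal.ofReal (‖hfun p β (r * exp (θ * I))‖ ^ 4) =
      ENNReal.ofReal (∫ θ in (-Real.pi)..Real.pi, ‖hfun p β (r * exp (θ * I))‖ ^ 4) := by
    rw [intervalIntegral.integral_of_le hpi, integral_Ioc_eq_integral_Ioo,
      ofReal_integral_eq_lintegral_ofReal]
    · exact (hcont.integrableOn_Icc).mono_set Ioo_subset_Icc_self
    · exact Eventually.of_forall fun θ => by positivity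
  rw [h1]
  have h2 := circle p β hsm hp r hr0.le hr1
  rw [← h2.tsum_eq, ← ENNReal.ofReal_mul hr0.le, ← tsum_mul_left,
    ENNReal.ofReal_tsum_of_nonneg]
  · refine tsum_congr fun n => ?_
    congr 1
    ring
  · intro n
    positivity
  · exact h2.summable.mul_left r

theorem lint (p : ℕ) (β : ℕ → ℂ) (hsm : ∀ r : ℝ, 0 ≤ r → r < 1 → Summable (fun n : ℕ => ‖β n‖ * r ^ n))
    (hp : 1 ≤ p) (hc : ContinuousOn (hfun p β) (ball 0 1)) :
    ∫⁻ z in ball (0 : ℂ) 1, ENNReal.ofReal (‖hfun p β z‖ ^ 4) ≤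
      ∑' n : ℕ, ENNReal.ofReal (Real.pi * (‖gam β n‖ ^ 2 / (p * n + 1))) := by
  classical
  have hFm : Measurable ((ball (0 : ℂ) 1).indicator (fun z => ENNReal.ofReal (‖hfun p β z‖ ^ 4))) := by
    have h1 : ContinuousOn (fun z => ENNReal.ofReal (‖hfun p β z‖ ^ 4)) (ball (0 : ℂ) 1) :=
      ENNReal.continuous_ofReal.comp_continuousOn (hc.norm.pow 4)
    have h2 := h1.measurable_piecewise (g := fun _ => (0 : ℝ≥0∞)) continuousOn_const
      (measurableSet_ball)
    exact h2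
  rw [← lintegral_indicator measurableSet_ball, ← Complex.lintegral_comp_polarCoord_symm]
  set F := (ball (0 : ℂ) 1).indicator (fun z => ENNReal.ofReal (‖hfun p β z‖ ^ 4)) with hF
  have htar : polarCoord.target = Ioi (0 : ℝ) ×ˢ Ioo (-Real.pi) Real.pi := rfl
  rw [htar, Measure.volume_eq_prod, ← Measure.prod_restrict, lintegral_prod]
  · have h3 : ∀ r : ℝ, r ∈ Ioi (0 : ℝ) →
        ∫⁻ θ in Ioo (-Real.pi) Real.pi, ENNReal.ofReal (r, θ).1 • F (Complex.polarCoord.symm (r, θ)) ≤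
        (Ioo (0 : ℝ) 1).indicator (fun r => ∑' n : ℕ,
          ENNReal.ofReal (2 * Real.pi * ‖gam β n‖ ^ 2 * r ^ (2 * (p * n) + 1))) r := by
      intro r hr
      have hr0 : 0 < r := hr
      rcases lt_or_ge r 1 with hr1 | hr1
      · have hmem : r ∈ Ioo (0 : ℝ) 1 := ⟨hr0, hr1⟩
        rw [indicator_of_mem hmem, ← inner p β hsm hp hc r hr0 hr1]
        refine le_of_eq (lintegral_congr fun θ => ?_)
        rw [polar_eq, hF, indicator_of_mem]
        · rfl
        · rw [mem_ball_zero_iff, norm_re r θ hr0.le]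
          exact hr1
      · refine le_trans (le_of_eq ?_) zero_le
        rw [← lintegral_zero (μ := volume.restrict (Ioo (-Real.pi) Real.pi))]
        refine lintegral_congr fun θ => ?_
        rw [polar_eq, hF, indicator_of_notMem]
        · exact mul_zero _
        · rw [mem_ball_zero_iff, norm_re r θ hr0.le]
          exact not_lt.mpr hr1
    refine (setLIntegral_mono' measurableSet_Ioi h3).trans ?_
    rw [setLIntegral_indicator measurableSet_Ioo]
    have h4 : Ioo (0 : ℝ) 1 ∩ Ioi 0 = Ioo 0 1 := inter_eq_left.mpr fun x hx => hx.1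
    rw [h4, lintegral_tsum]
    · refine ENNReal.tsum_le_tsum fun n => le_of_eq ?_
      rw [← ofReal_integral_eq_lintegral_ofReal]
      · congr 1
        rw [← integral_Ioc_eq_integral_Ioo, ← intervalIntegral.integral_of_le zero_le_one,
          intervalIntegral.integral_const_mul, integral_pow]
        have h5 : (p : ℝ) * n + 1 ≠ 0 := by positivity
        push_cast
        field_simp
        ring
      · refine (Continuous.integrableOn_Icc ?_).mono_set Ioo_subset_Icc_self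
        fun_prop
      · rw [EventuallyLE, ae_restrict_iff' measurableSet_Ioo]
        refine Eventually.of_forall fun r hr => ?_
        have := hr.1
        simp only [Pi.zero_apply]
        positivity
    · intro n
      fun_prop
  · refine Measurable.aemeasurable ?_
    have h6 : Measurable (fun q : ℝ × ℝ => F (Complex.polarCoord.symm q)) := by
      refine hFm.comp ?_
      have h7 : Measurable fun q : ℝ × ℝ => (q.1 : ℂ) * exp (q.2 * I) := by fun_prop
      have h8 : (Complex.polarCoord.symm : ℝ × ℝ → ℂ) = fun q => (q.1 : ℂ) * exp (q.2 * I) := by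
        funext q
        exact polar_eq q.1 q.2
      rw [h8]
      exact h7
    exact (ENNReal.measurable_ofReal.comp measurable_fst).mul h6

theorem t (hPH : S_PH) : S_AB := by
  intro p Ω f φ β hp hΩ hC hs
  obtain ⟨h1, h2, h3, h4, h5, h6, h7⟩ := hPH p Ω f φ β hp hΩ hC
  have hsm := hC.sm
  set a : ℝ := ∑' n : ℕ, ‖β n‖ ^ 2 with ha
  -- the area
  have hA : area Ω = ∫ z in ball (0 : ℂ) 1, ‖hfun p β z‖ ^ 4 := by
    have := h6 (fun _ => 1)
    simp only [mul_one] at this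
    rw [← this]
    simp [area, Measure.real]
  set M : ℝ := Real.pi * ((2 * a ^ 2 + (p - 1) * ‖β 0‖ ^ 4) / (p + 1)) with hM
  have hp1 : (1 : ℝ) ≤ p := by exact_mod_cast hp
  have hM0 : 0 ≤ M := by
    have : (0 : ℝ) ≤ p - 1 := by linarith
    positivity
  rw [hA, integral_eq_lintegral_of_nonneg_ae]
  · refine ENNReal.toReal_le_of_le_ofReal hM0 ?_
    refine (lint p β hsm hp h3).trans ?_
    -- the comparison series
    set e : ℕ → ℝ := fun n => Real.pi * (2 / (p + 1) * cc β n) +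
      (if n = 0 then Real.pi * ((p - 1) / (p + 1) * ‖β 0‖ ^ 4) else 0) with he
    have hc0 : cc β 0 = ‖β 0‖ ^ 4 := by
      rw [cc]
      simp
      ring
    have hsum : HasSum e M := by
      have e1 := ((cc_hasSum β hs).mul_left (2 / ((p : ℝ) + 1))).mul_left Real.pi
      have e2 := hasSum_ite_eq (0 : ℕ) (Real.pi * (((p : ℝ) - 1) / (p + 1) * ‖β 0‖ ^ 4))
      have e3 := e1.add e2
      have e4 : Real.pi * (2 / ((p : ℝ) + 1) * a ^ 2) + Real.pi * (((p : ℝ) - 1) / (p + 1) * ‖β 0‖ ^ 4) = M := by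
        rw [hM]
        field_simp
      rw [← e4]
      exact e3
    have hle : ∀ n, Real.pi * (‖gam β n‖ ^ 2 / (p * n + 1)) ≤ e n := by
      intro n
      have g1 := gam_le β n
      have g2 := cc_nonneg β n
      have hpn : (0 : ℝ) < p * n + 1 := by positivity
      have hp2 : (0 : ℝ) < (p : ℝ) + 1 := by positivity
      rcases Nat.eq_zero_or_pos n with hn | hn
      · subst hn
        simp only [he, if_true]
        rw [hc0]
        rw [hc0] at g1
        simp only [Nat.cast_zero, mul_zero, zero_add, div_one, one_mul] at g1 ⊢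
        rw [← mul_add]
        refine mul_le_mul_of_nonneg_left (g1.trans (le_of_eq ?_)) Real.pi_pos.le
        field_simp
        ring
      · simp only [he, if_neg (Nat.pos_iff_ne_zero.mp hn), add_zero]
        refine mul_le_mul_of_nonneg_left ?_ Real.pi_pos.le
        rw [div_mul_eq_mul_div, div_le_div_iff₀ hpn hp2]
        have hn1 : (1 : ℝ) ≤ n := by exact_mod_cast hn
        have g3 : ((n : ℝ) + 1) * (p + 1) ≤ 2 * (p * n + 1) := by nlinarith
        calc ‖gam β n‖ ^ 2 * ((p : ℝ) + 1) ≤ ((n + 1) * cc β n) * (p + 1) :=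
              mul_le_mul_of_nonneg_right g1 hp2.le
          _ = cc β n * (((n : ℝ) + 1) * (p + 1)) := by ring
          _ ≤ cc β n * (2 * (p * n + 1)) := mul_le_mul_of_nonneg_left g3 g2
          _ = 2 * cc β n * (p * n + 1) := by ring
    have hen : ∀ n, 0 ≤ e n := fun n => le_trans (by positivity) (hle n)
    rw [← hsum.tsum_eq, ENNReal.ofReal_tsum_of_nonneg hen hsum.summable]
    exact ENNReal.tsum_le_tsum fun n => ENNReal.ofReal_le_ofReal (hle n)
  · exact Eventually.of_forall fun z => by positivity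
  · exact (ContinuousOn.aestronglyMeasurable (h3.norm.pow 4) measurableSet_ball)

end Pool.Agent.Helper71.ST.AB
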